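import Mathlib
import Pool.Agent.W533.Iso.Sphere
import Pool.Agent.W533.Iso.Omega
import Pool.Agent.W533.Iso.Stretch

/-!
# The isoperimetric profile of the square flat torus of dimension `d ≥ 10`
-/

open Set Metric MeasureTheory Module Filter
open scoped Pointwise ENNReal NNReal RealInnerProductSpace Topology

namespace Pool.Agent.Results.MP_cbfbdc_gt.ProfileFailsHighDim

open Pool.Agent.W533.Iso

noncomputable section

/-- The square flat torus `T^d = ℝ^d / ℤ^d` with its flat distance: the `ℓ²` product of `d` copies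
of the circle `ℝ / ℤ`. -/
abbrev Torus (d : ℕ) : Type := PiLp 2 (fun _ : Fin d => UnitAddCircle)

/-- The covering map `ℝ^d → T^d`. -/
def proj {d : ℕ} (x : EuclideanSpace ℝ (Fin d)) : Torus d :=
  WithLp.toLp 2 (fun i => ((x i : ℝ) : UnitAddCircle))

/-- A domain: a compact subset of `T^d` with smooth boundary. In the local charts given by the
covering map, near each boundary point the set is `{f ≤ 0}` with `f` smooth and `df ≠ 0`. -/
structure IsTorusDomain {d : ℕ} (D : Set (Torus d)) : Prop where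
  isCompact : IsCompact D
  smooth_boundary : ∀ p : EuclideanSpace ℝ (Fin d), proj p ∈ frontier D →
    ∃ U ∈ 𝓝 p, ∃ f : EuclideanSpace ℝ (Fin d) → ℝ, ContDiff ℝ (⊤ : ℕ∞) f ∧ fderiv ℝ f p ≠ 0 ∧
      ∀ x ∈ U, (proj x ∈ D ↔ f x ≤ 0)

/-- The isoperimetric profile `h(β)` of `T^d`. -/
def profile (d : ℕ) (β : ℝ) : ℝ≥0∞ :=
  ⨅ (D : Set (Torus d)) (_ : IsTorusDomain D) (_ : μHE[d] D = ENNReal.ofReal β),
    μHE[d - 1] (frontier D)

/-- `φ_k(β)` is defined. -/
def Applicable (d k : ℕ) (β : ℝ) : Prop := β < omega (d - k) / 2 ^ (d - k)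

/-- `φ_k(β)`, the boundary volume `(d-k) ω_{d-k} r^{d-k-1}` of the tube `N_k(r)` of volume
`ω_{d-k} r^{d-k} = β`; here `omega m` is the volume of the unit ball of `ℝ ^ m`. -/
def phi (d k : ℕ) (β : ℝ) : ℝ :=
  ((d - k : ℕ) : ℝ) * omega (d - k) * ((β / omega (d - k)) ^ (1 / ((d - k : ℕ) : ℝ))) ^ (d - k - 1)

variable {d : ℕ}

/-- Lattice vectors. -/
def lat (z : Fin d → ℤ) : EuclideanSpace ℝ (Fin d) := WithLp.toLp 2 (fun i => (z i : ℝ))

lemma lat_apply (z : Fin d → ℤ) (i : Fin d) : lat z i = z i := rfl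

lemma proj_apply (x : EuclideanSpace ℝ (Fin d)) (i : Fin d) : proj x i = ((x i : ℝ) : UnitAddCircle) :=
  rfl

lemma proj_sub (x y : EuclideanSpace ℝ (Fin d)) : proj (x - y) = proj x - proj y := by
  ext i
  simp [proj_apply]

lemma proj_lat (z : Fin d → ℤ) : proj (lat z) = 0 := by
  ext i
  rw [proj_apply, lat_apply]
  simp only [PiLp.zero_apply]
  rw [AddCircle.coe_eq_zero_iff]
  exact ⟨z i, by simp⟩

lemma proj_eq_zero_iff (x : EuclideanSpace ℝ (Fin d)) : proj x = 0 ↔ ∃ z : Fin d → ℤ, x = lat z := by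
  constructor
  · intro h
    have h1 : ∀ i, ∃ n : ℤ, (n : ℝ) = x i := by
      intro i
      have h2 : proj x i = (0 : Torus d) i := by rw [h]
      rw [proj_apply, PiLp.zero_apply, AddCircle.coe_eq_zero_iff] at h2
      obtain ⟨n, hn⟩ := h2
      exact ⟨n, by simpa using hn⟩
    choose z hz using h1
    refine ⟨z, ?_⟩
    ext i
    rw [lat_apply, hz]
  · rintro ⟨z, rfl⟩
    exact proj_lat z

lemma proj_eq_iff (x y : EuclideanSpace ℝ (Fin d)) :
    proj x = proj y ↔ ∃ z : Fin d → ℤ, x - y = lat z := by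
  rw [← sub_eq_zero, ← proj_sub, proj_eq_zero_iff]

lemma norm_coe_le (t : ℝ) : ‖(t : UnitAddCircle)‖ ≤ |t| := by
  rw [UnitAddCircle.norm_eq]
  simpa using round_le t 0

lemma norm_coe_of_le {t : ℝ} (ht : |t| ≤ 1 / 2) : ‖(t : UnitAddCircle)‖ = |t| :=
  (AddCircle.norm_coe_eq_abs_iff 1 one_ne_zero).2 (by simpa using ht)

lemma dist_proj (x y : EuclideanSpace ℝ (Fin d)) :
    dist (proj x) (proj y) = √(∑ i, ‖((x i - y i : ℝ) : UnitAddCircle)‖ ^ 2) := by
  rw [PiLp.dist_eq_of_L2]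
  congr 1
  refine Finset.sum_congr rfl fun i _ => ?_
  rw [dist_eq_norm, proj_apply, proj_apply, AddCircle.coe_sub]

lemma lipschitz_proj : LipschitzWith 1 (proj (d := d)) := by
  refine LipschitzWith.of_dist_le_mul fun x y => ?_
  rw [dist_proj, EuclideanSpace.dist_eq, NNReal.coe_one, one_mul]
  refine Real.sqrt_le_sqrt (Finset.sum_le_sum fun i _ => ?_)
  rw [Real.dist_eq]
  gcongr
  exact norm_coe_le _

lemma continuous_proj : Continuous (proj (d := d)) := lipschitz_proj.continuous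

lemma dist_proj_of_le {x y : EuclideanSpace ℝ (Fin d)} (h : ∀ i, |x i - y i| ≤ 1 / 2) :
    dist (proj x) (proj y) = dist x y := by
  rw [dist_proj, EuclideanSpace.dist_eq]
  congr 1
  refine Finset.sum_congr rfl fun i _ => ?_
  rw [Real.dist_eq, norm_coe_of_le (h i)]

lemma isOpenMap_proj : IsOpenMap (proj (d := d)) := by
  have h1 : IsOpenMap (Pi.map (fun _ : Fin d => ((↑) : ℝ → UnitAddCircle))) := by
    refine IsOpenMap.piMap (fun i => QuotientAddGroup.isOpenMap_coe) ?_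
    exact Filter.Eventually.of_forall fun i => QuotientAddGroup.mk_surjective
  have h2 : (proj (d := d)) = (PiLp.homeomorph 2 (fun _ : Fin d => UnitAddCircle)).symm ∘
      (Pi.map (fun _ : Fin d => ((↑) : ℝ → UnitAddCircle))) ∘
      (PiLp.homeomorph 2 (fun _ : Fin d => ℝ)) := by
    rfl
  rw [h2]
  exact (PiLp.homeomorph 2 _).symm.isOpenMap.comp (h1.comp (PiLp.homeomorph 2 _).isOpenMap)

/-- Half-unit cells. -/
def hcell (w : Fin d → ℤ) : Set (EuclideanSpace ℝ (Fin d)) := {x | ∀ i, ⌊2 * x i⌋ = w i}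

lemma measurableSet_hcell (w : Fin d → ℤ) : MeasurableSet (hcell w) := by
  have : hcell w = ⋂ i, {x : EuclideanSpace ℝ (Fin d) | ⌊2 * x i⌋ = w i} := by
    ext x
    simp [hcell]
  rw [this]
  refine MeasurableSet.iInter fun i => ?_
  have h1 : Measurable (fun x : EuclideanSpace ℝ (Fin d) => ⌊2 * x i⌋) := by fun_prop
  exact h1 (measurableSet_singleton (w i))

lemma hcell_close {w : Fin d → ℤ} {x y : EuclideanSpace ℝ (Fin d)} (hx : x ∈ hcell w)
    (hy : y ∈ hcell w) (i : Fin d) : |x i - y i| ≤ 1 / 2 := by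
  have h1 := Int.floor_le (2 * x i)
  have h2 := Int.lt_floor_add_one (2 * x i)
  have h3 := Int.floor_le (2 * y i)
  have h4 := Int.lt_floor_add_one (2 * y i)
  rw [hx i] at h1 h2
  rw [hy i] at h3 h4
  rw [abs_le]
  constructor <;> linarith

/-- On a set where all coordinates differ by at most `1/2` the covering map is isometric. -/
lemma muHE_proj_of_close (n : ℕ) {A : Set (EuclideanSpace ℝ (Fin d))}
    (hA : ∀ x ∈ A, ∀ y ∈ A, ∀ i, |x i - y i| ≤ 1 / 2) :
    μHE[n] (proj '' A) = μHE[n] A := by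
  have h1 : Isometry (fun x : A => (proj (x : EuclideanSpace ℝ (Fin d)) : Torus d)) := by
    refine Isometry.of_dist_eq fun x y => ?_
    exact dist_proj_of_le (hA x x.2 y y.2)
  have h2 : Isometry (Subtype.val : A → EuclideanSpace ℝ (Fin d)) := isometry_subtype_coe
  have h3 := h1.euclideanHausdorffMeasure_image (d := n) univ
  have h4 := h2.euclideanHausdorffMeasure_image (d := n) univ
  rw [image_univ] at h3 h4
  rw [Subtype.range_coe] at h4
  rw [h4, ← h3]
  congr 1
  ext t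
  simp

/-- The covering map preserves the volume of sets on which it is injective. -/
lemma muHE_proj_of_injOn {A : Set (EuclideanSpace ℝ (Fin d))} (hA : MeasurableSet A)
    (hinj : InjOn (proj (d := d)) A) : μHE[d] (proj '' A) = volume A := by
  have hcov : A = ⋃ w : Fin d → ℤ, A ∩ hcell w := by
    rw [← inter_iUnion]
    refine (inter_eq_left.2 fun x _ => ?_).symm
    exact mem_iUnion.2 ⟨fun i => ⌊2 * x i⌋, fun i => rfl⟩
  have hdisj : Pairwise (Function.onFun Disjoint (fun w : Fin d → ℤ => A ∩ hcell w)) := by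
    intro w w' hne
    refine Set.disjoint_left.2 ?_
    rintro x ⟨_, hx⟩ ⟨_, hx'⟩
    exact hne (funext fun i => (hx i).symm.trans (hx' i))
  have hm : ∀ w : Fin d → ℤ, MeasurableSet (A ∩ hcell w) := fun w =>
    hA.inter (measurableSet_hcell w)
  have hdisj' : Pairwise (Function.onFun Disjoint
      (fun w : Fin d → ℤ => (proj '' (A ∩ hcell w) : Set (Torus d)))) := by
    intro w w' hne
    refine Set.disjoint_left.2 ?_
    rintro _ ⟨x, hx, rfl⟩ ⟨y, hy, hxy⟩
    have : y = x := hinj hy.1 hx.1 hxy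
    subst this
    exact Set.disjoint_left.1 (hdisj hne) hx hy
  have hm' : ∀ w : Fin d → ℤ, MeasurableSet (proj '' (A ∩ hcell w) : Set (Torus d)) := fun w =>
    (hm w).image_of_continuousOn_injOn continuous_proj.continuousOn (hinj.mono inter_subset_left)
  have h1 : (proj '' A : Set (Torus d)) = ⋃ w : Fin d → ℤ, proj '' (A ∩ hcell w) := by
    conv_lhs => rw [hcov]
    rw [image_iUnion]
  rw [h1, measure_iUnion hdisj' hm']
  conv_rhs => rw [hcov, measure_iUnion hdisj hm]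
  refine tsum_congr fun w => ?_
  rw [muHE_proj_of_close d fun x hx y hy i => hcell_close hx.2 hy.2 i]
  rw [EuclideanSpace.euclideanHausdorffMeasure_eq_volume]

/-- The unit vector in the diagonal direction. -/
def diag (d : ℕ) : EuclideanSpace ℝ (Fin d) := WithLp.toLp 2 (fun _ => (√(d : ℝ))⁻¹)

lemma norm_diag (hd : 0 < d) : ‖diag d‖ = 1 := by
  have hd' : (0 : ℝ) < d := by exact_mod_cast hd
  rw [EuclideanSpace.norm_eq, Real.sqrt_eq_one]
  simp [diag]
  field_simp

lemma norm_lat_sq (z : Fin d → ℤ) : ‖lat z‖ ^ 2 = ((∑ i, z i ^ 2 : ℤ) : ℝ) := by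
  rw [EuclideanSpace.norm_eq, Real.sq_sqrt (by positivity)]
  simp [lat_apply]

lemma inner_diag_lat_sq (hd : 0 < d) (z : Fin d → ℤ) :
    ⟪diag d, lat z⟫ ^ 2 = (((∑ i, z i) ^ 2 : ℤ) : ℝ) / d := by
  have hd' : (0 : ℝ) < d := by exact_mod_cast hd
  have h1 : ⟪diag d, lat z⟫ = (∑ i, (z i : ℝ)) * (√(d : ℝ))⁻¹ := by
    rw [PiLp.inner_apply, Finset.sum_mul]
    refine Finset.sum_congr rfl fun i _ => ?_
    simp [diag, lat_apply]
  rw [h1, mul_pow, inv_pow, Real.sq_sqrt hd'.le, ← div_eq_mul_inv]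
  push_cast
  rfl

lemma sum_sq_cases (z : Fin d → ℤ) (hz : z ≠ 0) :
    2 ≤ ∑ i, z i ^ 2 ∨ (∑ i, z i ^ 2 = 1 ∧ 1 ≤ (∑ i, z i) ^ 2) := by
  obtain ⟨j, hj⟩ : ∃ j, z j ≠ 0 := by
    by_contra h
    push Not at h
    exact hz (funext h)
  have h1 : z j ^ 2 ≤ ∑ i, z i ^ 2 :=
    Finset.single_le_sum (f := fun i => z i ^ 2) (fun i _ => sq_nonneg _) (Finset.mem_univ j)
  have h2 : 0 < z j ^ 2 := by positivity
  rcases lt_or_ge (∑ i, z i ^ 2) 2 with h | h
  · right
    have h3 : ∑ i, z i ^ 2 = 1 := by omega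
    refine ⟨h3, ?_⟩
    have h4 : Even (∑ i, (z i ^ 2 - z i)) := by
      refine Finset.even_sum _ fun i _ => ?_
      have := Int.even_mul_pred_self (z i)
      rwa [show z i ^ 2 - z i = z i * (z i - 1) by ring]
    rw [Finset.sum_sub_distrib, h3] at h4
    have h5 : ∑ i, z i ≠ 0 := by
      intro h0
      rw [h0] at h4
      norm_num at h4
    have h6 : 0 < (∑ i, z i) ^ 2 := by positivity
    omega
  · left
    exact h

/-- The linear map whose half-unit ball is the ellipsoid. -/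
def Bmap (d : ℕ) (α : ℝ) : EuclideanSpace ℝ (Fin d) →ₗ[ℝ] EuclideanSpace ℝ (Fin d) :=
  stretch (diag d) α⁻¹ (α ^ (d - 1))

/-- The inverse of `Bmap`. -/
def Amap (d : ℕ) (α : ℝ) : EuclideanSpace ℝ (Fin d) →ₗ[ℝ] EuclideanSpace ℝ (Fin d) :=
  stretch (diag d) α (α ^ (d - 1))⁻¹

lemma Bmap_Amap (hd : 0 < d) {α : ℝ} (hα : α ≠ 0) (x : EuclideanSpace ℝ (Fin d)) :
    Bmap d α (Amap d α x) = x := by
  rw [Bmap, Amap, stretch_stretch (norm_diag hd), inv_mul_cancel₀ hα,
    mul_inv_cancel₀ (pow_ne_zero _ hα), stretch_one_one]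

lemma Amap_Bmap (hd : 0 < d) {α : ℝ} (hα : α ≠ 0) (x : EuclideanSpace ℝ (Fin d)) :
    Amap d α (Bmap d α x) = x := by
  rw [Bmap, Amap, stretch_stretch (norm_diag hd), mul_inv_cancel₀ hα,
    inv_mul_cancel₀ (pow_ne_zero _ hα), stretch_one_one]

lemma norm_Amap_le (hd : 0 < d) {α : ℝ} (hα : 1 ≤ α) (x : EuclideanSpace ℝ (Fin d)) :
    ‖Amap d α x‖ ≤ α * ‖x‖ := by
  refine norm_stretch_le (norm_diag hd) (by linarith) (by positivity) ?_ x
  have h1 : (1 : ℝ) ≤ α ^ (d - 1) := one_le_pow₀ hα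
  have h2 : (α ^ (d - 1))⁻¹ ≤ 1 := inv_le_one_of_one_le₀ h1
  linarith

lemma det_Amap (hd : 0 < d) {α : ℝ} (hα : 0 < α) : LinearMap.det (Amap d α) = 1 := by
  rw [Amap, det_stretch (norm_diag hd) hα.ne', finrank_euclideanSpace_fin]
  obtain ⟨k, rfl⟩ : ∃ k, d = k + 1 := ⟨d - 1, by omega⟩
  simp only [Nat.add_sub_cancel]
  field_simp
  ring

lemma two_term_lt {α : ℝ} (hα : 1 < α) (hd : 2 ≤ d) :
    (d : ℝ) < (d - 1) * (α ^ 2)⁻¹ + (α ^ (d - 1)) ^ 2 := by
  obtain ⟨k, rfl⟩ : ∃ k, d = k + 2 := ⟨d - 2, by omega⟩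
  have ht : 1 < α ^ 2 := one_lt_pow₀ hα two_ne_zero
  set t := α ^ 2 with ht'
  have h1 : (α ^ (k + 2 - 1)) ^ 2 = t ^ (k + 1) := by
    rw [ht', ← pow_mul, ← pow_mul, show k + 2 - 1 = k + 1 by omega, mul_comm]
  rw [h1]
  have h2 : 1 + ((k + 1 : ℕ) : ℝ) * (t - 1) ≤ (1 + (t - 1)) ^ (k + 1) :=
    one_add_mul_le_pow (by linarith) (k + 1)
  rw [show 1 + (t - 1) = t by ring] at h2
  have h3 : 2 - t < t⁻¹ := by
    have ht0 : 0 < t := by linarith
    rw [← one_div, lt_div_iff₀ ht0]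
    nlinarith [mul_pos (sub_pos.2 ht) (sub_pos.2 ht)]
  have hk : (0 : ℝ) ≤ k := by positivity
  push_cast at h2 ⊢
  nlinarith

/-- Nonzero lattice vectors are long for the norm `‖Bmap ·‖`. -/
lemma exists_gap {α : ℝ} (hα : 1 < α) (hα2 : α ^ 2 < 2) (hd : 2 ≤ d) :
    ∃ η : ℝ, 0 < η ∧ ∀ z : Fin d → ℤ, z ≠ 0 → 1 + η ≤ ‖Bmap d α (lat z)‖ := by
  have hd0 : 0 < d := by omega
  have hdR : (0 : ℝ) < d := by exact_mod_cast hd0
  have h1 := two_term_lt hα hd
  set μ : ℝ := min (2 * (α ^ 2)⁻¹) ((α ^ 2)⁻¹ + ((α ^ (d - 1)) ^ 2 - (α ^ 2)⁻¹) / d) with hμ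
  have hμ1 : 1 < μ := by
    rw [hμ, lt_min_iff]
    constructor
    · rw [← div_eq_mul_inv, one_lt_div (by positivity)]
      exact hα2
    · rw [show (α ^ 2)⁻¹ + ((α ^ (d - 1)) ^ 2 - (α ^ 2)⁻¹) / (d : ℝ) =
        ((d - 1) * (α ^ 2)⁻¹ + (α ^ (d - 1)) ^ 2) / d by field_simp; ring]
      rw [one_lt_div hdR]
      exact h1
  have hcoef : 0 ≤ (α ^ (d - 1)) ^ 2 - (α ^ 2)⁻¹ := by
    have h2 : (1 : ℝ) ≤ (α ^ (d - 1)) ^ 2 := one_le_pow₀ (one_le_pow₀ hα.le)
    have h3 : (α ^ 2)⁻¹ ≤ 1 := inv_le_one_of_one_le₀ (one_le_pow₀ hα.le)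
    linarith
  have key : ∀ z : Fin d → ℤ, z ≠ 0 → μ ≤ ‖Bmap d α (lat z)‖ ^ 2 := by
    intro z hz
    rw [Bmap, norm_stretch_sq (norm_diag hd0), norm_lat_sq, inner_diag_lat_sq hd0, inv_pow]
    rcases sum_sq_cases z hz with h | ⟨h, h'⟩
    · refine (min_le_left _ _).trans ?_
      have h2 : (2 : ℝ) ≤ ((∑ i, z i ^ 2 : ℤ) : ℝ) := by exact_mod_cast h
      have h3 : (0 : ℝ) ≤ (((∑ i, z i) ^ 2 : ℤ) : ℝ) / d := by positivity
      have h4 : 0 ≤ (α ^ 2)⁻¹ := by positivity
      nlinarith [mul_nonneg hcoef h3, mul_le_mul_of_nonneg_left h2 h4]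
    · refine (min_le_right _ _).trans ?_
      rw [h]
      have h2 : (1 : ℝ) ≤ (((∑ i, z i) ^ 2 : ℤ) : ℝ) := by exact_mod_cast h'
      have h3 : (1 : ℝ) / d ≤ (((∑ i, z i) ^ 2 : ℤ) : ℝ) / d := by gcongr
      have h4 := mul_le_mul_of_nonneg_left h3 hcoef
      rw [mul_one_div] at h4
      push_cast at h4 ⊢
      linarith
  refine ⟨√μ - 1, ?_, fun z hz => ?_⟩
  · rw [sub_pos, Real.lt_sqrt zero_le_one]
    simpa using hμ1
  · rw [add_sub_cancel]
    exact Real.sqrt_le_iff.2 ⟨norm_nonneg _, key z hz⟩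

/-- The ellipsoid. -/
def ell (d : ℕ) (α : ℝ) : Set (EuclideanSpace ℝ (Fin d)) := {x | ‖Bmap d α x‖ ≤ 1 / 2}

lemma ell_eq_image (hd : 0 < d) {α : ℝ} (hα : α ≠ 0) :
    ell d α = Amap d α '' closedBall 0 (1 / 2) := by
  ext x
  constructor
  · intro hx
    exact ⟨Bmap d α x, mem_closedBall_zero_iff.2 hx, Amap_Bmap hd hα x⟩
  · rintro ⟨y, hy, rfl⟩
    change ‖Bmap d α (Amap d α y)‖ ≤ 1 / 2
    rw [Bmap_Amap hd hα]
    simpa using hy

lemma isCompact_ell (hd : 0 < d) {α : ℝ} (hα : α ≠ 0) : IsCompact (ell d α) := by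
  rw [ell_eq_image hd hα]
  exact (isCompact_closedBall _ _).image (LinearMap.continuous_of_finiteDimensional _)

lemma isConnected_ell (hd : 0 < d) {α : ℝ} (hα : α ≠ 0) : IsConnected (ell d α) := by
  rw [ell_eq_image hd hα]
  refine IsConnected.image ⟨⟨0, by simp⟩, ?_⟩ _
    (LinearMap.continuous_of_finiteDimensional _).continuousOn
  exact (convex_closedBall _ _).isPreconnected

lemma volume_ell (hd : 0 < d) {α : ℝ} (hα : 0 < α) :
    volume (ell d α) = ENNReal.ofReal (omega d / 2 ^ d) := by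
  rw [ell_eq_image hd hα.ne', Measure.addHaar_image_linearMap, det_Amap hd hα, abs_one,
    ENNReal.ofReal_one, one_mul, Measure.addHaar_closedBall _ _ (by norm_num),
    finrank_euclideanSpace_fin, ← ofReal_omega d hd.ne', ← ENNReal.ofReal_mul (by positivity)]
  congr 1
  rw [one_div, inv_pow]
  ring

/-- If `x - y` is a nonzero lattice vector and `y` is in the ellipsoid then `x` is at a definite
distance from the ellipsoid. -/
lemma far_of_ne {α η : ℝ} (hη : ∀ z : Fin d → ℤ, z ≠ 0 → 1 + η ≤ ‖Bmap d α (lat z)‖)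
    {x y : EuclideanSpace ℝ (Fin d)} (hy : y ∈ ell d α) {z : Fin d → ℤ} (hz : z ≠ 0)
    (hxy : x - y = lat z) : 1 / 2 + η ≤ ‖Bmap d α x‖ := by
  have h1 := hη z hz
  have h2 : ‖Bmap d α y‖ ≤ 1 / 2 := hy
  have h3 : ‖Bmap d α (lat z)‖ ≤ ‖Bmap d α x‖ + ‖Bmap d α y‖ := by
    rw [← hxy, map_sub]
    exact norm_sub_le _ _
  linarith

lemma injOn_ell {α η : ℝ} (hη0 : 0 < η)
    (hη : ∀ z : Fin d → ℤ, z ≠ 0 → 1 + η ≤ ‖Bmap d α (lat z)‖) :
    InjOn (proj (d := d)) (ell d α) := by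
  intro x hx y hy hxy
  obtain ⟨z, hz⟩ := (proj_eq_iff x y).1 hxy
  by_cases h0 : z = 0
  · have h1 : lat (0 : Fin d → ℤ) = 0 := by
      ext i
      simp [lat_apply]
    rw [h0, h1, sub_eq_zero] at hz
    exact hz
  · have h1 := far_of_ne hη hy h0 hz
    have h2 : ‖Bmap d α x‖ ≤ 1 / 2 := hx
    linarith

lemma continuous_Bmap (d : ℕ) (α : ℝ) : Continuous (Bmap d α) :=
  LinearMap.continuous_of_finiteDimensional _

lemma not_mem_frontier_of_lt {α : ℝ} {x : EuclideanSpace ℝ (Fin d)} (hx : ‖Bmap d α x‖ < 1 / 2) :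
    (proj x : Torus d) ∉ frontier (proj '' ell d α) := by
  intro h
  have hopen : IsOpen {y : EuclideanSpace ℝ (Fin d) | ‖Bmap d α y‖ < 1 / 2} :=
    isOpen_lt (continuous_Bmap d α).norm continuous_const
  have h1 : (proj x : Torus d) ∈ interior (proj '' ell d α) := by
    refine mem_interior.2 ⟨proj '' {y | ‖Bmap d α y‖ < 1 / 2}, ?_, isOpenMap_proj _ hopen,
      ⟨x, hx, rfl⟩⟩
    refine image_mono fun y hy => ?_
    exact (show ‖Bmap d α y‖ < 1 / 2 from hy).le
  exact h.2 h1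

lemma isTorusDomain_ell (hd : 0 < d) {α η : ℝ} (hα : α ≠ 0) (hη0 : 0 < η)
    (hη : ∀ z : Fin d → ℤ, z ≠ 0 → 1 + η ≤ ‖Bmap d α (lat z)‖) :
    IsTorusDomain (proj '' ell d α : Set (Torus d)) := by
  have hcomp : IsCompact (proj '' ell d α : Set (Torus d)) :=
    (isCompact_ell hd hα).image continuous_proj
  refine ⟨hcomp, fun p hp => ?_⟩
  have hpD : (proj p : Torus d) ∈ (proj '' ell d α : Set (Torus d)) := by
    have := hp.1
    rwa [hcomp.isClosed.closure_eq] at this
  obtain ⟨y, hy, hyp⟩ := hpD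
  obtain ⟨z, hz⟩ := (proj_eq_iff p y).1 hyp.symm
  -- `p = y + lat z` with `y` in the ellipsoid
  have hy' : ‖Bmap d α y‖ = 1 / 2 := by
    by_contra hne
    have hlt : ‖Bmap d α y‖ < 1 / 2 := lt_of_le_of_ne hy hne
    rw [← hyp] at hp
    exact not_mem_frontier_of_lt hlt hp
  have hpy : p - lat z = y := by rw [← hz]; abel
  set L : EuclideanSpace ℝ (Fin d) →L[ℝ] EuclideanSpace ℝ (Fin d) :=
    LinearMap.toContinuousLinearMap (Bmap d α) with hL
  have hLB : ∀ x, L x = Bmap d α x := fun x => rfl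
  refine ⟨{x | ‖Bmap d α (x - lat z)‖ < 1 / 2 + η}, ?_,
    fun x => ‖L (x - lat z)‖ ^ 2 - (1 / 2) ^ 2, ?_, ?_, ?_⟩
  · refine IsOpen.mem_nhds ?_ ?_
    · refine isOpen_lt ?_ continuous_const
      exact ((continuous_Bmap d α).comp (by fun_prop)).norm
    · change ‖Bmap d α (p - lat z)‖ < 1 / 2 + η
      rw [hpy, hy']
      linarith
  · refine ContDiff.sub (ContDiff.norm_sq ℝ ?_) contDiff_const
    exact L.contDiff.comp (contDiff_id.sub contDiff_const)
  · have h1 : HasFDerivAt (fun x => ‖L (x - lat z)‖ ^ 2 - (1 / 2 : ℝ) ^ 2)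
        (2 • (innerSL ℝ (L (p - lat z))).comp L) p := by
      have h2 : HasFDerivAt (fun x => L (x - lat z)) L p := by
        have := L.hasFDerivAt (x := p - lat z)
        exact this.comp p ((hasFDerivAt_id p).sub_const (lat z))
      exact h2.norm_sq.sub_const _
    rw [h1.fderiv, hpy]
    intro h0
    have h2 := congrArg (fun φ : EuclideanSpace ℝ (Fin d) →L[ℝ] ℝ => φ y) h0
    simp only [smul_apply, ContinuousLinearMap.comp_apply,
      zero_apply, innerSL_apply_apply, real_inner_self_eq_norm_sq] at h2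
    rw [hLB, hy'] at h2
    norm_num at h2
  · intro x hx
    have hx' : ‖Bmap d α (x - lat z)‖ < 1 / 2 + η := hx
    have hiff : ‖L (x - lat z)‖ ^ 2 - (1 / 2 : ℝ) ^ 2 ≤ 0 ↔ ‖Bmap d α (x - lat z)‖ ≤ 1 / 2 := by
      rw [sub_nonpos, hLB]
      exact pow_le_pow_iff_left₀ (norm_nonneg _) (by norm_num) two_ne_zero
    rw [hiff]
    constructor
    · rintro ⟨w, hw, hwx⟩
      obtain ⟨z', hz'⟩ := (proj_eq_iff x w).1 hwx.symm
      by_cases h0 : z' = z
      · have : x - lat z = w := by rw [← h0, ← hz']; abel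
        rw [this]
        exact hw
      · exfalso
        have h1 : (x - lat z) - w = lat (z' - z) := by
          have : lat (z' - z) = lat z' - lat z := by
            ext i
            simp [lat_apply]
          rw [this, ← hz']
          abel
        have h2 := far_of_ne hη hw (sub_ne_zero.2 h0) h1
        linarith
    · intro h
      refine ⟨x - lat z, h, ?_⟩
      rw [proj_sub, proj_lat, sub_zero]

lemma frontier_subset {α : ℝ} (hd : 0 < d) (hα : α ≠ 0) :
    frontier (proj '' ell d α : Set (Torus d)) ⊆ proj '' (Amap d α '' sphere 0 (1 / 2)) := by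
  have hcomp : IsCompact (proj '' ell d α : Set (Torus d)) :=
    (isCompact_ell hd hα).image continuous_proj
  intro t ht
  have htD : t ∈ (proj '' ell d α : Set (Torus d)) := by
    have := ht.1
    rwa [hcomp.isClosed.closure_eq] at this
  obtain ⟨y, hy, rfl⟩ := htD
  refine ⟨y, ⟨Bmap d α y, ?_, Amap_Bmap hd hα y⟩, rfl⟩
  rw [mem_sphere_zero_iff_norm]
  by_contra hne
  exact not_mem_frontier_of_lt (lt_of_le_of_ne hy hne) ht

lemma muHE_lipschitz_le {X Y : Type*} [MetricSpace X] [MeasurableSpace X] [BorelSpace X]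
    [MetricSpace Y] [MeasurableSpace Y] [BorelSpace Y] (n : ℕ) {f : X → Y} {C : ℝ≥0}
    (hf : LipschitzWith C f) (s : Set X) : μHE[n] (f '' s) ≤ (C : ℝ≥0∞) ^ n * μHE[n] s := by
  have h := hf.hausdorffMeasure_image_le (d := (n : ℝ)) (by positivity) s
  rw [Measure.euclideanHausdorffMeasure_def, Measure.euclideanHausdorffMeasure_def,
    Measure.smul_apply, Measure.smul_apply]
  rw [ENNReal.rpow_natCast] at h
  rw [mul_smul_comm]
  gcongr

/-- The boundary volume of the ellipsoidal domain. -/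
lemma bdry_le (hd : 0 < d) {α : ℝ} (hα : 1 ≤ α) :
    μHE[d - 1] (frontier (proj '' ell d α : Set (Torus d))) ≤
      ENNReal.ofReal (α ^ (d - 1) * ((1 / 2) ^ (d - 1) * (d * omega d))) := by
  have hα0 : 0 < α := by linarith
  have hlip : LipschitzWith (Real.toNNReal α) (Amap d α) := by
    refine LipschitzWith.of_dist_le_mul fun x y => ?_
    rw [Real.coe_toNNReal _ hα0.le, dist_eq_norm, dist_eq_norm, ← map_sub]
    exact norm_Amap_le hd hα _
  calc μHE[d - 1] (frontier (proj '' ell d α : Set (Torus d)))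
      ≤ μHE[d - 1] (proj '' (Amap d α '' sphere 0 (1 / 2)) : Set (Torus d)) :=
        measure_mono (frontier_subset hd hα0.ne')
    _ ≤ ((1 : ℝ≥0) : ℝ≥0∞) ^ (d - 1) * μHE[d - 1] (Amap d α '' sphere 0 (1 / 2)) :=
        muHE_lipschitz_le _ lipschitz_proj _
    _ = μHE[d - 1] (Amap d α '' sphere 0 (1 / 2)) := by simp
    _ ≤ ((Real.toNNReal α : ℝ≥0) : ℝ≥0∞) ^ (d - 1) *
          μHE[d - 1] (sphere (0 : EuclideanSpace ℝ (Fin d)) (1 / 2)) :=
        muHE_lipschitz_le _ hlip _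
    _ ≤ ((Real.toNNReal α : ℝ≥0) : ℝ≥0∞) ^ (d - 1) * (ENNReal.ofReal ((1 / 2) ^ (d - 1)) *
          ((((d - 1 : ℕ) : ℝ≥0∞) + 1) * volume (ball (0 : EuclideanSpace ℝ (Fin d)) 1))) := by
        gcongr
        exact sphere_le' (d - 1) (by rw [finrank_euclideanSpace_fin]; omega) 0 (by norm_num)
    _ = ENNReal.ofReal (α ^ (d - 1) * ((1 / 2) ^ (d - 1) * (d * omega d))) := by
        have h1 : (((d - 1 : ℕ) : ℝ≥0∞) + 1) = ENNReal.ofReal d := by
          rw [ENNReal.ofReal_natCast]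
          have : d = (d - 1) + 1 := by omega
          conv_rhs => rw [this]
          push_cast
          rfl
        rw [h1, ← ofReal_omega d hd.ne', ← ENNReal.ofReal_mul (by positivity),
          ENNReal.ofReal_mul (p := α ^ (d - 1)) (by positivity),
          ENNReal.ofReal_mul (p := (1 / 2) ^ (d - 1)) (by positivity), ENNReal.ofReal_pow hα0.le]
        rfl

/-- The unit cell. -/
def ucell (d : ℕ) : Set (EuclideanSpace ℝ (Fin d)) := {x | ∀ i, x i ∈ Ico (0 : ℝ) 1}

lemma ucell_eq : ucell d = (fun x : EuclideanSpace ℝ (Fin d) => WithLp.ofLp x) ⁻¹'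
    (Set.pi univ fun _ : Fin d => Ico (0 : ℝ) 1) := by
  ext x
  simp [ucell]

/-- The torus has volume one. -/
lemma muHE_torus (d : ℕ) : μHE[d] (univ : Set (Torus d)) = 1 := by
  have hm : MeasurableSet (Set.pi univ fun _ : Fin d => Ico (0 : ℝ) 1) :=
    MeasurableSet.univ_pi fun _ => measurableSet_Ico
  have hmp := EuclideanSpace.volume_preserving_symm_measurableEquiv_toLp (Fin d)
  have h0 : MeasurableSet (ucell d) := by
    rw [ucell_eq]
    exact hmp.measurable hm
  have hinj : InjOn (proj (d := d)) (ucell d) := by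
    intro x hx y hy hxy
    obtain ⟨z, hz⟩ := (proj_eq_iff x y).1 hxy
    ext i
    have h1 : x i - y i = z i := by
      have := congrArg (fun w : EuclideanSpace ℝ (Fin d) => w i) hz
      simpa [lat_apply] using this
    have h2 := hx i
    have h3 := hy i
    have h4 : (-1 : ℝ) < z i := by
      rw [← h1]
      linarith [h2.1, h3.2]
    have h5 : (z i : ℝ) < 1 := by
      rw [← h1]
      linarith [h2.2, h3.1]
    have h6 : z i = 0 := by
      have h7 : -1 < z i := by exact_mod_cast h4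
      have h8 : z i < 1 := by exact_mod_cast h5
      omega
    rw [h6] at h1
    push_cast at h1
    linarith
  have hsurj : (proj '' ucell d : Set (Torus d)) = univ := by
    refine eq_univ_of_forall fun t => ?_
    have h1 : ∀ i, ∃ r : ℝ, r ∈ Ico (0 : ℝ) 1 ∧ (r : UnitAddCircle) = t i := by
      intro i
      refine ⟨AddCircle.equivIco 1 0 (t i), ?_, ?_⟩
      · have := (AddCircle.equivIco 1 0 (t i)).2
        simpa using this
      · exact (AddCircle.equivIco 1 0).symm_apply_apply (t i)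
    choose r hr using h1
    refine ⟨WithLp.toLp 2 r, fun i => (hr i).1, ?_⟩
    ext i
    exact (hr i).2
  rw [← hsurj, muHE_proj_of_injOn h0 hinj, ucell_eq]
  refine (hmp.measure_preimage hm.nullMeasurableSet).trans ?_
  rw [volume_pi_pi]
  simp

/-- All tubes of volume `ω_d / 2 ^ d` have larger boundary than the ball of radius `1/2`. -/
lemma lt_phi (hd : 10 ≤ d) {k : ℕ} (hk1 : 1 ≤ k) (hkd : k < d) :
    (1 / 2) ^ (d - 1) * (d * omega d) < phi d k (omega d / 2 ^ d) := by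
  obtain ⟨m, hm⟩ : ∃ m, m = d - k := ⟨_, rfl⟩
  have hm1 : 1 ≤ m := by omega
  have hmd : m < d := by omega
  have hlt := aseq_lt d m hd hm1 hmd
  rw [aseq_self d (by omega), aseq] at hlt
  rw [phi, ← hm]
  have hω : 0 < omega m := omega_pos m (by omega)
  have hωd : 0 < omega d := omega_pos d (by omega)
  have hdR : (0 : ℝ) < d := by
    have : 0 < d := by omega
    exact_mod_cast this
  have hmR : (0 : ℝ) < m := by exact_mod_cast hm1
  set β : ℝ := omega d / 2 ^ d with hβ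
  have hβ0 : 0 < β := by positivity
  have hlhs : (1 / 2 : ℝ) ^ (d - 1) * (d * omega d) = 2 * d * β := by
    obtain ⟨j, rfl⟩ : ∃ j, d = j + 1 := ⟨d - 1, by omega⟩
    rw [hβ]
    simp only [Nat.add_sub_cancel, one_div, inv_pow]
    field_simp
    ring
  rw [hlhs]
  set r : ℝ := (β / omega m) ^ (1 / (m : ℝ)) with hr
  have hr0 : 0 < r := by positivity
  have hrm : r ^ m = β / omega m := by
    rw [hr, ← Real.rpow_natCast, ← Real.rpow_mul (by positivity), one_div,
      inv_mul_cancel₀ hmR.ne', Real.rpow_one]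
  have hr1 : r < m / (2 * d) := by
    refine lt_of_pow_lt_pow_left₀ m (by positivity) ?_
    rw [hrm, div_lt_iff₀ hω, mul_comm]
    exact hlt
  have h1 : (m : ℝ) * omega m * r ^ (m - 1) * r = m * β := by
    have h2 : r ^ (m - 1) * r = r ^ m := by
      rw [← pow_succ]
      congr 1
      omega
    calc (m : ℝ) * omega m * r ^ (m - 1) * r = m * (omega m * (r ^ (m - 1) * r)) := by ring
      _ = m * β := by
        rw [h2, hrm]
        field_simp
  have h3 : 2 * d * β * r < m * β := by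
    rw [lt_div_iff₀ (by positivity)] at hr1
    nlinarith
  rw [← h1] at h3
  exact lt_of_mul_lt_mul_right h3 hr0.le

/-- **Main theorem.** The torus `T^d` has volume one, and for every `d ≥ 10` there is
`β ∈ (0, 1/2]` and a connected domain of volume `β` whose boundary volume is strictly less than
every applicable `φ_k(β)`; in particular `h(β) < min_k φ_k(β)`, and the conjectured description of
the profile is false. -/
theorem result :
    (∀ d : ℕ, μHE[d] (univ : Set (Torus d)) = 1) ∧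
    (∀ d : ℕ, 10 ≤ d → ∃ β : ℝ, 0 < β ∧ β ≤ 1 / 2 ∧
      (∃ D : Set (Torus d), IsTorusDomain D ∧ IsConnected D ∧ μHE[d] D = ENNReal.ofReal β ∧
        ∀ k < d, Applicable d k β → μHE[d - 1] (frontier D) < ENNReal.ofReal (phi d k β)) ∧
      profile d β < ⨅ (k : ℕ) (_ : k < d) (_ : Applicable d k β), ENNReal.ofReal (phi d k β)) ∧
    ¬ ∀ d : ℕ, 3 ≤ d → ∀ β : ℝ, 0 < β → β ≤ 1 / 2 →
      profile d β = ⨅ (k : ℕ) (_ : k < d) (_ : Applicable d k β), ENNReal.ofReal (phi d k β) := by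
  have main : ∀ d : ℕ, 10 ≤ d → ∃ β : ℝ, 0 < β ∧ β ≤ 1 / 2 ∧
      (∃ D : Set (Torus d), IsTorusDomain D ∧ IsConnected D ∧ μHE[d] D = ENNReal.ofReal β ∧
        ∀ k < d, Applicable d k β → μHE[d - 1] (frontier D) < ENNReal.ofReal (phi d k β)) ∧
      profile d β < ⨅ (k : ℕ) (_ : k < d) (_ : Applicable d k β), ENNReal.ofReal (phi d k β) := by
    intro d hd
    have hd0 : 0 < d := by omega
    have hωd : 0 < omega d := omega_pos d (by omega)
    have hev1 : ∀ᶠ α in 𝓝 (1 : ℝ), ∀ k ∈ Finset.Ico 1 d,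
        α ^ (d - 1) * ((1 / 2) ^ (d - 1) * (d * omega d)) < phi d k (omega d / 2 ^ d) := by
      rw [Filter.eventually_all_finset]
      intro k hk
      rw [Finset.mem_Ico] at hk
      have h1 : Tendsto (fun α : ℝ => α ^ (d - 1) * ((1 / 2) ^ (d - 1) * (d * omega d))) (𝓝 1)
          (𝓝 (1 ^ (d - 1) * ((1 / 2) ^ (d - 1) * (d * omega d)))) :=
        (Continuous.tendsto (by fun_prop) 1)
      refine h1.eventually_lt_const ?_
      rw [one_pow, one_mul]
      exact lt_phi hd hk.1 hk.2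
    have hev2 : ∀ᶠ α in 𝓝 (1 : ℝ), α ^ 2 < 2 := by
      have h1 : Tendsto (fun α : ℝ => α ^ 2) (𝓝 1) (𝓝 (1 ^ 2)) :=
        (Continuous.tendsto (by fun_prop) 1)
      exact h1.eventually_lt_const (by norm_num)
    obtain ⟨α, ⟨hα1, hα2⟩, hα⟩ := (((hev1.and hev2).filter_mono nhdsWithin_le_nhds).and
      (self_mem_nhdsWithin (s := Ioi (1 : ℝ)))).exists
    have hα : 1 < α := hα
    obtain ⟨η, hη0, hη⟩ := exists_gap (d := d) hα hα2 (by omega)
    have hαne : α ≠ 0 := by linarith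
    have hdom : IsTorusDomain (proj '' ell d α : Set (Torus d)) :=
      isTorusDomain_ell hd0 hαne hη0 hη
    have hvol : μHE[d] (proj '' ell d α : Set (Torus d)) = ENNReal.ofReal (omega d / 2 ^ d) := by
      rw [muHE_proj_of_injOn (isCompact_ell hd0 hαne).isClosed.measurableSet
        (injOn_ell hη0 hη), volume_ell hd0 (by linarith)]
    have hbd : ∀ k < d, Applicable d k (omega d / 2 ^ d) →
        μHE[d - 1] (frontier (proj '' ell d α : Set (Torus d))) <
          ENNReal.ofReal (phi d k (omega d / 2 ^ d)) := by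
      intro k hkd hk
      have hk1 : 1 ≤ k := by
        rcases Nat.eq_zero_or_pos k with h0 | h0
        · subst h0
          exact absurd hk (lt_irrefl _)
        · exact h0
      refine (bdry_le hd0 hα.le).trans_lt ?_
      have h1 := hα1 k (Finset.mem_Ico.2 ⟨hk1, hkd⟩)
      rw [ENNReal.ofReal_lt_ofReal_iff_of_nonneg (by positivity)]
      exact h1
    have hβhalf : omega d / 2 ^ d ≤ 1 / 2 := by
      have h1 := aseq_lt d 1 hd le_rfl (by omega)
      rw [aseq_self d hd0, aseq, omega_one] at h1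
      have hdR : (10 : ℝ) ≤ d := by exact_mod_cast hd
      have h2 : 2 * (((1 : ℕ) : ℝ) / (2 * d)) ^ 1 ≤ 1 / 2 := by
        rw [pow_one, Nat.cast_one, mul_one_div, div_le_div_iff₀ (by positivity) (by positivity)]
        linarith
      linarith
    refine ⟨omega d / 2 ^ d, by positivity, hβhalf, ⟨proj '' ell d α, hdom, ?_, hvol, hbd⟩, ?_⟩
    · exact (isConnected_ell hd0 hαne).image _ continuous_proj.continuousOn
    · have hle : profile d (omega d / 2 ^ d) ≤
          μHE[d - 1] (frontier (proj '' ell d α : Set (Torus d))) :=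
        iInf_le_of_le _ (iInf_le_of_le hdom (iInf_le_of_le hvol le_rfl))
      refine hle.trans_lt ?_
      classical
      set F : ℕ → ℝ≥0∞ := fun k => if Applicable d k (omega d / 2 ^ d) then
        ENNReal.ofReal (phi d k (omega d / 2 ^ d)) else ⊤ with hF
      have htop : μHE[d - 1] (frontier (proj '' ell d α : Set (Torus d))) < ⊤ :=
        (bdry_le hd0 hα.le).trans_lt ENNReal.ofReal_lt_top
      have h1 : μHE[d - 1] (frontier (proj '' ell d α : Set (Torus d))) <
          (Finset.range d).inf F := by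
        rw [Finset.lt_inf_iff htop]
        intro k hk
        rw [Finset.mem_range] at hk
        by_cases hA : Applicable d k (omega d / 2 ^ d)
        · simp only [hF, if_pos hA]
          exact hbd k hk hA
        · simp only [hF, if_neg hA]
          exact htop
      refine h1.trans_le ?_
      refine le_iInf fun k => le_iInf fun hk => le_iInf fun hA => ?_
      have h2 := Finset.inf_le (f := F) (Finset.mem_range.2 hk)
      simpa only [hF, if_pos hA] using h2
  refine ⟨muHE_torus, main, fun h => ?_⟩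
  obtain ⟨β, h1, h2, _, h3⟩ := main 10 le_rfl
  exact h3.ne (h 10 (by norm_num) β h1 h2)

end

end Pool.Agent.Results.MP_cbfbdc_gt.ProfileFailsHighDim
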